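import Pool.Agent.Q88.PS.Stm

/-!
# Assembly of the final statement
-/

set_option autoImplicit false

open MeasureTheory Set Filter Topology
open scoped ENNReal NNReal

noncomputable section

namespace Pool.Agent.Q88.PS

/-- `K` is a self-similar set without rotations and reflections which satisfies the strong separation
condition. -/
def SelfSimSSC (K : Set E2) : Prop :=
  K.Nonempty ∧ IsCompact K ∧
    ∃ (q : ℕ) (ρ : Fin q → ℝ) (c : Fin q → E2), (∀ j, ρ j ∈ Ioo (0 : ℝ) 1) ∧
      K = ⋃ j, (fun x => ρ j • x + c j) '' K ∧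
      ∀ i j, i ≠ j → Disjoint ((fun x => ρ i • x + c i) '' K) ((fun x => ρ j • x + c j) '' K)

/-- The orthogonal projection onto the line spanned by the unit vector `u`, identified with `ℝ`. -/
def proj (u x : E2) : ℝ := inner ℝ u x

/-- `K`, the direction `u` and the dimension `s` form an example as asked for. -/
def Example (K : Set E2) (u : E2) (s : ℝ) : Prop :=
  SelfSimSSC K ∧ ‖u‖ = 1 ∧ 1 < s ∧ dimH K = ENNReal.ofReal s ∧
    0 < μH[s] K ∧ μH[s] K < ⊤ ∧
    0 < volume (proj u '' K) ∧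
    ((μH[s] : Measure E2).restrict K).map (proj u) ⟂ₘ volume ∧
    ∀ᵐ t ∂(volume.restrict (proj u '' K)), packMeas (s - 1) (K ∩ proj u ⁻¹' {t}) = ⊤

lemma ssc (h : S_base) (h1 : S_sep) : SelfSimSSC KK := by
  refine ⟨h.2.1, h.1, 16, fun _ => 1 / 8, fun j => (1 / 8 : ℝ) • dv (finProdFinEquiv.symm j),
    fun _ => by norm_num, ?_, ?_⟩
  · have h2 : ∀ d : D, (fun x : E2 => (1 / 8 : ℝ) • x + (1 / 8 : ℝ) • dv d) '' KK = psi d '' KK := by
      intro d
      refine image_congr fun x _ => ?_
      simp [psi, smul_add]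
    have h3 := h.2.2.1
    calc KK = ⋃ d : D, psi d '' KK := h3
      _ = ⋃ j : Fin 16, psi (finProdFinEquiv.symm j) '' KK :=
          ((finProdFinEquiv (m := 4) (n := 4)).symm.surjective.iUnion_comp
            (fun d : D => psi d '' KK)).symm
      _ = _ := iUnion_congr fun j => (h2 _).symm
  · intro i j hij
    rw [Set.disjoint_left]
    rintro z ⟨x, hx, rfl⟩ ⟨y, hy, hxy⟩
    have h2 : (finProdFinEquiv.symm i : D) ≠ finProdFinEquiv.symm j := by
      intro h3
      exact hij (finProdFinEquiv.symm.injective h3)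
    have h3 := h1 _ _ h2 x hx y hy
    have h4 : psi (finProdFinEquiv.symm i) x = psi (finProdFinEquiv.symm j) y := by
      simp only [psi, smul_add]
      exact hxy.symm
    rw [h4, dist_self] at h3
    norm_num at h3

lemma dimK (h : S_hfin) (h1 : S_hpos) : dimH KK = ENNReal.ofReal (4 / 3) := by
  have e : ((4 / 3 : ℝ≥0) : ℝ) = 4 / 3 := by push_cast; norm_num
  have h2 : ENNReal.ofReal (4 / 3) = ((4 / 3 : ℝ≥0) : ℝ≥0∞) := by
    rw [← e, ENNReal.ofReal_coe_nnreal]
  rw [h2]
  apply le_antisymm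
  · apply dimH_le_of_hausdorffMeasure_ne_top
    rw [e]
    exact (lt_of_le_of_lt h ENNReal.one_lt_top).ne
  · apply le_dimH_of_hausdorffMeasure_ne_zero
    rw [e]
    exact h1.ne'

/-- Length of `(1, lam)`. -/
def cc (lam : ℝ) : ℝ := Real.sqrt (1 + lam ^ 2)

lemma cc_pos (lam : ℝ) : 0 < cc lam := Real.sqrt_pos.2 (by positivity)

/-- The unit vector. -/
def uu (lam : ℝ) : E2 := !₂[1 / cc lam, lam / cc lam]

lemma norm_uu (lam : ℝ) : ‖uu lam‖ = 1 := by
  have hc := cc_pos lam
  have h2 : cc lam ^ 2 = 1 + lam ^ 2 := Real.sq_sqrt (by positivity)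
  rw [uu, EuclideanSpace.norm_eq]
  simp only [Fin.sum_univ_two, Real.norm_eq_abs, sq_abs]
  rw [Real.sqrt_eq_one]
  simp only [Matrix.cons_val_zero, Matrix.cons_val_one]
  rw [div_pow, div_pow, one_pow, ← add_div, h2]
  exact div_self (by positivity)

lemma proj_uu (lam : ℝ) (x : E2) : proj (uu lam) x = pr lam x / cc lam := by
  simp [proj, uu, pr, PiLp.inner_apply, Fin.sum_univ_two]
  ring

theorem assemble (h : S_base) (h1 : S_sep) (h2 : S_hfin) (h3 : S_hpos) (h4 : S_intv)
    (h5 : S_slc) (h6 : S_ae) (h7 : S_sgm) (h8 : S_ugm) (h9 : S_bai) :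
    ∃ (K : Set E2) (u : E2) (s : ℝ), Example K u s := by
  obtain ⟨lam, hl, hS, hU⟩ := h9
  have hc := cc_pos lam
  have hL : 0 < LL lam := by
    have := hl.1
    unfold LL
    linarith
  refine ⟨KK, uu lam, 4 / 3, ssc h h1, norm_uu lam, by norm_num, dimK h2 h3, h3,
    lt_of_le_of_lt h2 ENNReal.one_lt_top, ?_, ?_, ?_⟩
  · have e : proj (uu lam) '' KK = Icc 0 (LL lam / cc lam) := by
      have e1 : proj (uu lam) '' KK = (fun t => t / cc lam) '' (pr lam '' KK) := by
        rw [image_image]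
        exact image_congr fun x _ => proj_uu lam x
      rw [e1, h4 lam hl]
      ext t
      constructor
      · rintro ⟨s, hs, rfl⟩
        exact ⟨div_nonneg hs.1 hc.le, div_le_div_of_nonneg_right hs.2 hc.le⟩
      · rintro ⟨ht1, ht2⟩
        refine ⟨t * cc lam, ⟨mul_nonneg ht1 hc.le, ?_⟩, by field_simp⟩
        rwa [le_div_iff₀ hc] at ht2
    rw [e, Real.volume_Icc, ENNReal.ofReal_pos, sub_zero]
    exact div_pos hL hc
  · obtain ⟨A, hA, hA1, hA2⟩ := h7 lam hl hS
    have hm : Measurable (pr lam) := by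
      unfold pr
      fun_prop
    have hmp : Measurable (proj (uu lam)) := by
      have : proj (uu lam) = fun x => pr lam x / cc lam := funext (proj_uu lam)
      rw [this]
      exact hm.div_const _
    refine ⟨(fun t => cc lam * t) ⁻¹' A, hA.preimage (measurable_const_mul _), ?_, ?_⟩
    · rw [Measure.map_apply hmp (hA.preimage (measurable_const_mul _))]
      rw [Measure.map_apply hm hA] at hA1
      convert hA1 using 2
      ext x
      simp only [mem_preimage, proj_uu]
      rw [mul_div_cancel₀ _ hc.ne']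
    · have e : ((fun t => cc lam * t) ⁻¹' A)ᶜ = (fun t => cc lam * t) ⁻¹' Aᶜ := rfl
      rw [e, Real.volume_preimage_mul_left hc.ne', hA2, mul_zero]
  · have h10 := h6 lam hl (h8 lam hl hU)
    have h11 : ∀ᵐ t : ℝ, ∀ w : List D, res lam (cc lam * t) w ∈ Icc (0 : ℝ) (LL lam) →
        Vs lam (res lam (cc lam * t) w) = ⊤ := by
      rw [ae_iff] at h10 ⊢
      have e : {t : ℝ | ¬ ∀ w : List D, res lam (cc lam * t) w ∈ Icc (0 : ℝ) (LL lam) →
          Vs lam (res lam (cc lam * t) w) = ⊤} = (fun t => cc lam * t) ⁻¹'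
          {τ : ℝ | ¬ ∀ w : List D, res lam τ w ∈ Icc (0 : ℝ) (LL lam) →
          Vs lam (res lam τ w) = ⊤} := rfl
      rw [e, Real.volume_preimage_mul_left hc.ne', h10, mul_zero]
    have hms : MeasurableSet (proj (uu lam) '' KK) := by
      apply IsCompact.measurableSet
      apply h.1.image
      unfold proj
      fun_prop
    rw [ae_restrict_iff' hms]
    filter_upwards [h11] with t ht htK
    obtain ⟨x, hx, hxt⟩ := htK
    have e1 : KK ∩ proj (uu lam) ⁻¹' {t} = {x | x ∈ KK ∧ pr lam x = cc lam * t} := by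
      ext y
      simp only [mem_inter_iff, mem_preimage, mem_singleton_iff, mem_setOf_eq, proj_uu]
      refine and_congr_right fun _ => ?_
      rw [div_eq_iff hc.ne', mul_comm]
    have e2 : (4 / 3 - 1 : ℝ) = 1 / 3 := by norm_num
    rw [e1, e2]
    apply h5 lam hl (cc lam * t) _ ht
    rw [← h4 lam hl]
    refine ⟨x, hx, ?_⟩
    rw [← hxt, proj_uu, mul_div_cancel₀ _ hc.ne']

end Pool.Agent.Q88.PS
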