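import Pool.Agent.Q88.PS.Stm

/-!
# Fractions with odd numerator and denominator are dense
-/

set_option autoImplicit false

namespace Pool.Agent.Q88.PS

lemma rat1 (a b : ℝ) (ha : 0 ≤ a) (hab : a < b) :
    ∃ p q : ℕ, Odd p ∧ Odd q ∧ a < (p : ℝ) / q ∧ (p : ℝ) / q < b := by
  have hba : 0 < b - a := by linarith
  obtain ⟨N, hN⟩ := exists_nat_gt (4 / (b - a))
  have hN' : 4 < N * (b - a) := (div_lt_iff₀ hba).1 hN
  set q : ℕ := 2 * N + 1 with hq
  have hq0 : (0 : ℝ) < q := by positivity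
  have hqN : (q : ℝ) = 2 * N + 1 := by rw [hq]; push_cast; ring
  have h4 : 4 < q * (b - a) := by
    rw [hqN]
    nlinarith [(Nat.cast_nonneg N : (0 : ℝ) ≤ N)]
  set m : ℕ := ⌊a * q / 2⌋₊ with hm
  have h1 : (m : ℝ) ≤ a * q / 2 := Nat.floor_le (by positivity)
  have h2 : a * q / 2 < m + 1 := Nat.lt_floor_add_one _
  refine ⟨2 * (m + 1) + 1, q, ⟨m + 1, rfl⟩, ⟨N, rfl⟩, ?_, ?_⟩
  · rw [lt_div_iff₀ hq0]
    push_cast
    linarith
  · rw [div_lt_iff₀ hq0]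
    push_cast
    nlinarith

theorem rat : S_rat := by
  intro a b ha hab
  refine ⟨rat1 a b ha hab, ?_⟩
  obtain ⟨p, q, hp, hq, h1, h2⟩ := rat1 (a / 2) (b / 2) (by linarith) (by linarith)
  refine ⟨p, q, hp, hq, ?_, ?_⟩
  · rw [mul_div_assoc]; linarith
  · rw [mul_div_assoc]; linarith

end Pool.Agent.Q88.PS
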