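import Mathlib

/-!
# Project PS: packing measure of the slices of a self-similar set with singular projection

`K` is the set of the points `∑ 8^(-n-1) (a n, b n)` with `a n ∈ {0, 1, 2, 3}` and
`b n ∈ {0, 1, 4, 5}`; it has dimension `4 / 3`. We look at the projections `x + lam * y` for
`lam` between `1` and `3 / 2`. For `lam = p / q`, `p`, `q` odd, the projected measure is absolutely
continuous with bounded density, and almost all slices have infinite packing measure; for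
`lam = 2 p / q`, `p`, `q` odd, the projected measure is singular. Baire's theorem gives a `lam` with
both properties.
-/

set_option autoImplicit false

open MeasureTheory Set Filter Topology
open scoped ENNReal NNReal

noncomputable section

namespace Pool.Agent.Q88.PS

/-- The plane. -/
abbrev E2 := EuclideanSpace ℝ (Fin 2)

/-- The sixteen digits. -/
abbrev D := Fin 4 × Fin 4

/-- First coordinate of a digit: `0, 1, 2, 3`. -/
def da (d : D) : ℕ := d.1.val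

/-- Second coordinate of a digit: `0, 1, 4, 5`. -/
def db (d : D) : ℕ := d.2.val % 2 + 4 * (d.2.val / 2)

/-- The digit as a vector. -/
def dv (d : D) : E2 := !₂[(da d : ℝ), (db d : ℝ)]

/-- The similitudes. -/
def psi (d : D) (x : E2) : E2 := (1 / 8 : ℝ) • (x + dv d)

/-- Compositions of the similitudes along a word. -/
def psw : List D → E2 → E2
  | [], x => x
  | d :: w, x => psi d (psw w x)

/-- The coding map. -/
def code (w : ℕ → D) : E2 :=
  !₂[∑' n, (1 / 8 : ℝ) ^ (n + 1) * da (w n), ∑' n, (1 / 8 : ℝ) ^ (n + 1) * db (w n)]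

/-- The self-similar set. -/
def KK : Set E2 := range code

/-- The (not normalised) projection. -/
def pr (lam : ℝ) (x : E2) : ℝ := x 0 + lam * x 1

/-- The projected digit. -/
def dl (lam : ℝ) (d : D) : ℝ := da d + lam * db d

/-- The length of the projection of `K`. -/
def LL (lam : ℝ) : ℝ := (3 + 5 * lam) / 7

/-- The position of `τ` with respect to the projected cylinder of the word `w`:
`pr lam (psw w x) = τ` if and only if `pr lam x = res lam τ w`. -/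
def res (lam : ℝ) : ℝ → List D → ℝ
  | τ, [] => τ
  | τ, d :: w => res lam (8 * τ - dl lam d) w

/-! ### Words of a given length -/

/-- The words of length `n`. -/
def wds : ℕ → Finset (List D)
  | 0 => {[]}
  | n + 1 => (Finset.univ ×ˢ wds n).image fun p : D × List D => p.1 :: p.2

lemma cons_inj : Function.Injective fun p : D × List D => p.1 :: p.2 := by
  rintro ⟨a, b⟩ ⟨c, d⟩ h
  simp only [List.cons.injEq] at h
  rw [h.1, h.2]

lemma mem_wds {n : ℕ} {w : List D} : w ∈ wds n ↔ w.length = n := by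
  induction n generalizing w with
  | zero => simp [wds]
  | succ n ih =>
    cases w with
    | nil => simp [wds]
    | cons d w => simp [wds, ih]

lemma sum_wds_succ {M : Type*} [AddCommMonoid M] (n : ℕ) (F : List D → M) :
    ∑ w ∈ wds (n + 1), F w = ∑ d : D, ∑ w ∈ wds n, F (d :: w) := by
  rw [wds, Finset.sum_image (fun a _ b _ h => cons_inj h), Finset.sum_product]

lemma sum_wds_add {M : Type*} [AddCommMonoid M] (m n : ℕ) (F : List D → M) :
    ∑ w ∈ wds (m + n), F w = ∑ u ∈ wds m, ∑ w ∈ wds n, F (u ++ w) := by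
  induction m generalizing F with
  | zero => simp [wds]
  | succ m ih =>
    rw [show m + 1 + n = (m + n) + 1 by ring, sum_wds_succ, sum_wds_succ]
    refine Finset.sum_congr rfl fun d _ => ?_
    rw [ih]
    rfl

lemma card_wds (n : ℕ) : (wds n).card = 16 ^ n := by
  induction n with
  | zero => simp [wds]
  | succ n ih =>
    rw [wds, Finset.card_image_of_injective _ cons_inj, Finset.card_product, ih, Finset.card_univ,
      pow_succ]
    simp [D]
    ring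

/-! ### Geometry of `K` -/

/-- **JOB BASE** (0.7 h), `theorem base : S_base`.
`code` is continuous on the compact space `ℕ → D` (product of finite discrete spaces; uniformly
convergent series, `continuous_tsum`, bound `5 * (1/8)^(n+1)`), so `K` is compact. The bounds of the
coordinates: `∑ (1/8)^(n+1) = 1/7`. The equation: `code w = psi (w 0) (code (fun n => w (n + 1)))`
(`Summable.tsum_eq_zero_add`), and every sequence with first term `d` is `d` followed by its shift. -/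
def S_base : Prop :=
  IsCompact KK ∧ KK.Nonempty ∧ KK = ⋃ d : D, psi d '' KK ∧
    ∀ x ∈ KK, x 0 ∈ Icc (0 : ℝ) (3 / 7) ∧ x 1 ∈ Icc (0 : ℝ) (5 / 7)

/-- **JOB SEP** (0.5 h), `theorem sep (h : S_base) : S_sep`.
If `d ≠ d'`, then one of the coordinates of `dv d`, `dv d'` differs by at least `1` (`da`, `db` are
natural numbers and `d` is determined by both), and the corresponding coordinates of `x`, `y ∈ K`
differ by at most `5 / 7`. So this coordinate of `psi d x - psi d' y` is at least `(2/7)/8 = 1/28` in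
absolute value, and the norm is at least that (`EuclideanSpace.dist_eq`, `PiLp.norm_apply_le`). -/
def S_sep : Prop :=
  ∀ d d' : D, d ≠ d' → ∀ x ∈ KK, ∀ y ∈ KK, (1 / 28 : ℝ) ≤ dist (psi d x) (psi d' y)

/-- **JOB SEPW** (0.6 h), `theorem sepw (h : S_base) (h1 : S_sep) : S_sepw`.
`psw w` maps `K` into `K`. Neither of the words is an initial segment of the other one: so they are
`u ++ d :: w`, `u ++ d' :: w'` with `d ≠ d'` (induction on `v`, `v'`). `psw (u ++ v) = psw u ∘ psw v`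
and `dist (psw u x) (psw u y) = (1/8)^|u| dist x y`; so the distance is `(1/8)^|u|` times that of
`psi d (psw w x)`, `psi d' (psw w' y)`, at least `(1/8)^|u| * (1/28)` and `|u| + 1 ≤ |v|, |v'|`:
`1/28 = (1/8) * (2/7)`. -/
def S_sepw : Prop :=
  ∀ v v' : List D, ¬ v <+: v' → ¬ v' <+: v → ∀ x ∈ KK, ∀ y ∈ KK,
    (2 / 7 : ℝ) * max ((1 / 8 : ℝ) ^ v.length) ((1 / 8 : ℝ) ^ v'.length) ≤
      dist (psw v x) (psw v' y)

/-- **JOB STEP** (0.3 h), `theorem step : S_step`.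
`L = LL lam ≥ 8/7 > 1`, `7 L = 3 + 5 lam`. Put `t = 8 y ∈ [0, 8 L]`. The digit `(a, b)` works if
`t ∈ [a + lam b, a + lam b + L]`; since `L ≥ 1` the digits `(0,b), …, (3,b)` cover
`[lam b, lam b + 3 + L]`. `b = 0`: `[0, 3 + L]`, `b = 1`: `[lam, lam + 3 + L]`, `b = 4`:
`[4 lam, 4 lam + 3 + L]`, `b = 5`: `[5 lam, 8 L]`; they overlap as `lam ≤ 3 + L`,
`4 lam ≤ lam + 3 + L` (`21 lam ≤ 24 + 5 lam`), `5 lam ≤ 4 lam + 3 + L`. -/
def S_step : Prop :=
  ∀ lam ∈ Icc (1 : ℝ) (3 / 2), ∀ y ∈ Icc (0 : ℝ) (LL lam),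
    ∃ d : D, 8 * y - dl lam d ∈ Icc (0 : ℝ) (LL lam)

/-- **JOB INTV** (0.6 h), `theorem intv (h : S_base) (h1 : S_step) : S_intv`.
`⊆`: `pr lam (code w) = ∑ (1/8)^(n+1) dl lam (w n)` and `0 ≤ dl lam d ≤ 3 + 5 lam` (or use the bounds of
the coordinates in `S_base`). `⊇`: for `y ∈ [0, L]` choose by `S_step` recursively digits `w n` and
`y 0 = y`, `y (n + 1) = 8 y n - dl lam (w n) ∈ [0, L]`; then
`y = ∑ i < n, (1/8)^(i+1) dl lam (w i) + (1/8)^n y n`, so the series has the sum `y`. -/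
def S_intv : Prop :=
  ∀ lam ∈ Icc (1 : ℝ) (3 / 2), pr lam '' KK = Icc (0 : ℝ) (LL lam)

/-- **JOB HIT** (0.4 h), `theorem hit (h : S_base) (h1 : S_intv) : S_hit`.
`pr lam (psi d x) = (pr lam x + dl lam d) / 8`, so by induction on `w`:
`pr lam (psw w x) = τ ↔ pr lam x = res lam τ w` (for all `τ`). -/
def S_hit : Prop :=
  ∀ lam ∈ Icc (1 : ℝ) (3 / 2), ∀ (τ : ℝ) (w : List D),
    ({x | x ∈ KK ∧ pr lam x = τ} ∩ psw w '' KK).Nonempty ↔ res lam τ w ∈ Icc (0 : ℝ) (LL lam)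

/-! ### Hausdorff measure of `K` -/

/-- **JOB HSC** (0.6 h), `theorem hsc : S_hsc`.
`psi d` is a translation followed by the multiplication with `1/8`:
`MeasureTheory.Measure.hausdorffMeasure_smul₀` and invariance under translations
(`IsometryEquiv.hausdorffMeasure_image` with `IsometryEquiv.addRight`), `(1/8)^(4/3) = 1/16`;
induction on `w`. -/
def S_hsc : Prop :=
  ∀ (w : List D) (A : Set E2),
    μH[(4 / 3 : ℝ)] (psw w '' A) = (16 : ℝ≥0∞)⁻¹ ^ w.length * μH[(4 / 3 : ℝ)] A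

/-- **JOB HFIN** (0.7 h), `theorem hfin (h : S_base) : S_hfin`.
For every `n`, `K` is the union of the `16 ^ n` sets `psw w '' K`, `w ∈ wds n` (iterate `S_base`), of
diameter at most `(1/8)^n` (as `K` has diameter at most `1`), and `16^n * ((1/8)^n)^(4/3) = 1`; so
`μH[4/3] K ≤ 1` by `MeasureTheory.Measure.hausdorffMeasure_le_liminf_sum`. -/
def S_hfin : Prop := μH[(4 / 3 : ℝ)] KK ≤ 1

/-- **JOB HPOS** (1.0 h), `theorem hpos (h : S_base) (h1 : S_sep) : S_hpos`.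
Let `g (code w) = ∑ (1/16)^(n+1) (4 * (w n).1 + (w n).2)`, well defined as `code` is injective (`S_sep`:
if `n` is the first index with `w n ≠ w' n`, then `dist (code w) (code w') ≥ (1/8)^n / 28`). For such
`w`, `w'`: `|g (code w) - g (code w')| ≤ (1/16)^n ≤ 28^(4/3) dist (code w) (code w') ^ (4/3)`. So `g` is
Hölder on `K` with exponent `4/3` and constant `28^(4/3)`, and `g '' K ⊇ [0, 1]` (expansions in base
`16`; `Real.ofDigits` in Mathlib, or greedy digits). So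
`1 ≤ μH[1] (g '' K) ≤ C ^ 1 * μH[4/3 * 1] K` by `HolderOnWith.hausdorffMeasure_image_le`
(`MeasureTheory.hausdorffMeasure_real`).
(Or: the image under `code` of the product measure on `ℕ → D` and
`MeasureTheory.Measure.le_hausdorffMeasure`.) -/
def S_hpos : Prop := 0 < μH[(4 / 3 : ℝ)] KK

/-! ### Packing measure -/

/-- `I` is a packing of `F`: finitely many pairwise disjoint closed balls with centres in `F` and radii
at most `δ` (pairs of centre and radius). -/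
def IsPacking (δ : ℝ) (F : Set E2) (I : Finset (E2 × ℝ)) : Prop :=
  (∀ p ∈ I, p.1 ∈ F ∧ 0 < p.2 ∧ p.2 ≤ δ) ∧
    ∀ p ∈ I, ∀ q ∈ I, p ≠ q → Disjoint (Metric.closedBall p.1 p.2) (Metric.closedBall q.1 q.2)

/-- Supremum of `∑ (2 r_i) ^ a` over the packings of `F` with radii at most `δ`. -/
def packSup (a δ : ℝ) (F : Set E2) : ℝ≥0∞ :=
  ⨆ (I : Finset (E2 × ℝ)) (_ : IsPacking δ F I), ∑ p ∈ I, ENNReal.ofReal (2 * p.2) ^ a

/-- The packing premeasure. -/
def prePack (a : ℝ) (F : Set E2) : ℝ≥0∞ := ⨅ (δ : ℝ) (_ : 0 < δ), packSup a δ F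

/-- The packing measure. -/
def packMeas (a : ℝ) (E : Set E2) : ℝ≥0∞ :=
  ⨅ (F : ℕ → Set E2) (_ : E ⊆ ⋃ i, F i), ∑' i, prePack a (F i)

/-- No word of `A` is a proper initial segment of another one. -/
def AC (A : Finset (List D)) : Prop := ∀ w ∈ A, ∀ w' ∈ A, w <+: w' → w = w'

/-- **JOB PRE** (0.7 h), `theorem pre (h : S_sepw) : S_pre`.
Let `x w ∈ closure F ∩ psw w '' K` for `w ∈ A`, choose `y w ∈ F` with
`dist (x w) (y w) ≤ (1/8)^|w| / 32` and the balls of centre `y w` and radius `(1/8)^|w| / 16`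
(at most `(1/8)^m ≤ δ`). For `w ≠ w'` in `A` `S_sepw` gives `dist (x w) (x w') ≥ (2/7) M`,
`M = max ((1/8)^|w|) ((1/8)^|w'|)`, so `dist (y w) (y w') ≥ (2/7 - 1/16) M > (1/8) M ≥` sum of the
radii: the balls are disjoint, the pairs distinct. Sum: `(2 r)^(1/3) = ((1/8)^(|w|+1))^(1/3) =
(1/2)^(|w|+1)`. -/
def S_pre : Prop :=
  ∀ (F : Set E2) (m : ℕ) (A : Finset (List D)), AC A →
    (∀ w ∈ A, m ≤ w.length ∧ (closure F ∩ psw w '' KK).Nonempty) →
    ∀ δ : ℝ, (1 / 8 : ℝ) ^ m ≤ δ →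
      2⁻¹ * ∑ w ∈ A, (2 : ℝ≥0∞)⁻¹ ^ w.length ≤ packSup (1 / 3) δ F

/-- **JOB PCK** (0.8 h), `theorem pck (h : S_base) (h1 : S_pre) : S_pck`.
Let `E ⊆ ⋃ F i`. `E` is a nonempty compact (so Baire) space covered by the closed sets `closure (F i)`:
one of them has nonempty interior in `E` (`nonempty_interior_of_iUnion_of_closed`, or
`IsCompact`/`IsGδ` versions): there are `x ∈ E` and `ε > 0` with `E ∩ ball x ε ⊆ closure (F i)`. For `n`
with `(1/8)^n < ε` there is `v ∈ wds n` with `x ∈ psw v '' K` (iterate `S_base`), of diameter at most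
`(1/8)^n` (the diameter of `K` is at most `1`), so `E ∩ psw v '' K ⊆ closure (F i)`. For `δ > 0` choose
`m` with `(1/8)^m ≤ δ`; for all `k` the antichain of the hypothesis and `S_pre` give
`packSup (1/3) δ (F i) ≥ k / 2`. So `prePack (1/3) (F i) = ⊤`, and the sum over `i` is `⊤`. -/
def S_pck : Prop :=
  ∀ E : Set E2, IsCompact E → E.Nonempty → E ⊆ KK →
    (∀ v : List D, (E ∩ psw v '' KK).Nonempty → ∀ m k : ℕ, ∃ A : Finset (List D), AC A ∧
      (∀ w ∈ A, m ≤ w.length ∧ v <+: w ∧ (E ∩ psw w '' KK).Nonempty) ∧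
      (k : ℝ≥0∞) ≤ ∑ w ∈ A, (2 : ℝ≥0∞)⁻¹ ^ w.length) →
    packMeas (1 / 3) E = ⊤

/-! ### The value of the best stopping rule -/

/-- The interval `(0, L)` as a function. -/
def ind (lam τ : ℝ) : ℝ≥0∞ := (Ioo (0 : ℝ) (LL lam)).indicator (fun _ => 1) τ

/-- The transfer operator. -/
def TT (lam : ℝ) (F : ℝ → ℝ≥0∞) (τ : ℝ) : ℝ≥0∞ := 2⁻¹ * ∑ d : D, F (8 * τ - dl lam d)

/-- The best sum `∑ 2^(-|w|)` over the antichains of words of length at most `n` whose projected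
cylinders contain `τ` in the interior. -/
def vv (lam : ℝ) : ℕ → ℝ → ℝ≥0∞
  | 0, τ => ind lam τ
  | n + 1, τ => max (ind lam τ) (TT lam (vv lam n) τ)

/-- Supremum over all depths. -/
def Vs (lam τ : ℝ) : ℝ≥0∞ := ⨆ n, vv lam n τ

/-- **JOB ANT** (0.7 h), `theorem ant : S_ant`.
Induction on `n` for all `τ`. `n = 0`: `A = {[]}` if `τ ∈ (0, L)`, else `∅`. Step: if the maximum is
`ind lam τ`, the same; else let `A d` be the antichain for `8 τ - dl lam d` and `n`, and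
`A = ⋃ d, (A d).image (d :: ·)`: an antichain, the sum is `∑ d, (1/2) ∑ w ∈ A d, 2^(-|w|)`. -/
def S_ant : Prop :=
  ∀ (lam : ℝ) (n : ℕ) (τ : ℝ), ∃ A : Finset (List D), AC A ∧
    (∀ w ∈ A, res lam τ w ∈ Ioo (0 : ℝ) (LL lam)) ∧
    vv lam n τ ≤ ∑ w ∈ A, (2 : ℝ≥0∞)⁻¹ ^ w.length

/-- **JOB SLC** (0.8 h), `theorem slc (h : S_base) (h1 : S_step) (h2 : S_hit) (h3 : S_ant)
(h4 : S_pck) : S_slc`.
`E = {x ∈ K | pr lam x = τ}` is compact, nonempty by `S_hit` with `w = []`. Let `v` be a word with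
`E ∩ psw v '' K ≠ ∅`, i.e. `res lam τ v ∈ [0, L]`. `res lam τ (v ++ u) = res lam (res lam τ v) u`. By
`S_step` there is `u` of length `m` with `res lam τ (v ++ u) ∈ [0, L]`; so `Vs = ⊤` there, and there is
`n` with `vv lam n ≥ k * 2^(|v| + m)`; if `A` is the antichain of `S_ant` for `res lam τ (v ++ u)`,
then the image of `A` under `w ↦ v ++ u ++ w` is as needed in `S_pck`. -/
def S_slc : Prop :=
  ∀ lam ∈ Icc (1 : ℝ) (3 / 2), ∀ τ ∈ Icc (0 : ℝ) (LL lam),
    (∀ w : List D, res lam τ w ∈ Icc (0 : ℝ) (LL lam) → Vs lam (res lam τ w) = ⊤) →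
    packMeas (1 / 3) {x | x ∈ KK ∧ pr lam x = τ} = ⊤

/-- **JOB AE** (0.5 h), `theorem ae1 : S_ae`.
`N = [0, L] \ {Vs lam = ⊤}` is a null set (the end points of the interval are a null set), and
`res lam τ w = 8^|w| τ - c w` (a constant `c w`), so `{τ | res lam τ w ∈ N}` is a null set for each of
the countably many words `w` (e.g. `Measure.QuasiMeasurePreserving`, or the affine map is a
homeomorphism which scales the measure). -/
def S_ae : Prop :=
  ∀ lam ∈ Icc (1 : ℝ) (3 / 2), (∀ᵐ τ ∂(volume.restrict (Ioo (0 : ℝ) (LL lam))), Vs lam τ = ⊤) →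
    ∀ᵐ τ : ℝ, ∀ w : List D, res lam τ w ∈ Icc (0 : ℝ) (LL lam) → Vs lam (res lam τ w) = ⊤

/-! ### Nice directions: `lam = p / q` with `p`, `q` odd -/

/-- **JOB TIN** (0.4 h), `theorem tin : S_tin`.
`∫⁻ F (8 τ - c) = (1/8) ∫⁻ F` (`lintegral` of an affine substitution: translation invariance and
`MeasureTheory.Measure.addHaar_preimage_smul`/`lintegral_comp_mul_left` or `Real.map_volume_mul_left`),
sixteen digits, factor `1/2`. -/
def S_tin : Prop :=
  ∀ (lam : ℝ) (F : ℝ → ℝ≥0∞), Measurable F → ∫⁻ τ, TT lam F τ = ∫⁻ τ, F τ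

/-- **JOB PER** (0.8 h), `theorem per : S_per`.
`8 (τ + j/q) - dl lam d = 8 τ + (8 j - (q da d + p db d)) / q`. For each residue `r` modulo `8` there
are exactly two digits `d` with `-(q da d + p db d) ≡ r` (it depends only on `p`, `q` modulo `8`:
`decide` over the odd residues), and for each such digit `j ↦ 8 j - (q da d + p db d)` runs through the
residue class `r`. So `∑' j, ∑ d, F (8 τ + (8 j - …)/q) = 2 ∑' i, F (8 τ + i/q)`
(`Int.tsum…`: reindex `ℤ` by `ℤ × Fin 8`, `i = 8 j + r`; sums in `ℝ≥0∞`, no summability needed). -/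
def S_per : Prop :=
  ∀ p q : ℕ, Odd p → Odd q → ∀ (F : ℝ → ℝ≥0∞) (τ : ℝ),
    ∑' j : ℤ, TT ((p : ℝ) / q) F (τ + j / q) = ∑' i : ℤ, F (8 * τ + i / q)

/-- **JOB BD** (0.5 h), `theorem bd (h : S_per) : S_bd`.
By `S_per` and induction `∑' j, (TT lam)^[n] F (τ + j/q) = ∑' i, F (8^n τ + i/q)`. For `F = ind lam` the
right hand side is the number of the integers `i` with `0 < 8^n τ + i/q < L`, an open interval of
length `q L`, so it is at most `q L + 1`; the left hand side is at least its term `j = 0`.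
(`p / q ≤ 3 / 2` gives `L ≤ 3/2`; any bound which depends only on `q` would do, here `2 q + 1`.) -/
def S_bd : Prop :=
  ∀ p q : ℕ, Odd p → Odd q → (p : ℝ) / q ≤ 3 / 2 → ∀ (n : ℕ) (τ : ℝ),
    (TT ((p : ℝ) / q))^[n] (ind ((p : ℝ) / q)) τ ≤ 2 * q + 1

/-- The words which are not stopped: stop as soon as the position is in `(0, 8^(-r))`. -/
def RR (lam : ℝ) (r : ℕ) : ℕ → ℝ → ℝ≥0∞
  | 0, τ => (Ioo (0 : ℝ) (LL lam) \ Ioo (0 : ℝ) ((1 / 8) ^ r)).indicator (fun _ => 1) τ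
  | n + 1, τ => (Ioo (0 : ℝ) ((1 / 8) ^ r))ᶜ.indicator (TT lam (RR lam r n)) τ

/-- **JOB DEC** (0.8 h), `theorem dec (h : S_tin) : S_dec`.
All functions are measurable. `RR` vanishes outside of `(0, L)` (induction: `dl lam d ∈ [0, 7 L]`, so
`8 τ - dl lam d ∈ (0, L)` implies `τ ∈ (0, L)`). By induction on `j` (`TT` is monotone)
`RR (n + j) ≤ TT^[j] (RR n)`. Let `m = r + 1`. Then
`RR (n + m) τ + 2^(-m) RR n (8^m τ) ≤ TT^[m] (RR n) τ` for all `τ`: if `τ ∈ (0, 8^(-r))` the first term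
is `0`, and `TT F τ ≥ (1/2) F (8 τ)` (digit `0`), iterated `m` times; otherwise `RR n (8^m τ) = 0`, as
`8^m τ ∈ (0, L)` would imply `τ ∈ (0, 8^(-r))` (`L ≤ 3/2 < 8`). Integrate (`S_tin`):
`∫ RR (n + m) + 16^(-m) ∫ RR n ≤ ∫ RR n`, where `∫ RR 0 ≤ L < ⊤` and the integrals decrease in `n`
(`RR (n+1) ≤ TT (RR n)`). Hence they tend to `0`. -/
def S_dec : Prop :=
  ∀ lam ∈ Icc (1 : ℝ) (3 / 2), ∀ r : ℕ, Tendsto (fun n => ∫⁻ τ, RR lam r n τ) atTop (𝓝 0)

/-- **JOB KEY** (0.7 h), `theorem key : S_key`.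
Write `G n = TT^[n] (ind lam)`; it vanishes outside of `(0, L)` (as in `S_dec`). First: for
`τ ∈ (0, 8^(-r))` and `n ≥ r`: `G n τ = 2^(-r) G (n - r) (8^r τ) ≤ 2^(-r) C`: for `0 < τ < 1/8` the
positions `8 τ - dl lam d` with `d ≠ 0` are negative as `dl lam d ≥ 1`, so `TT F τ = (1/2) F (8 τ)` if
`F` vanishes on the negative numbers. Now by induction on `n`:
`G (n + r) τ ≤ C * RR n τ + 2^(-r) C * vv n τ`. `n = 0`: `G r` vanishes outside of `(0, L)`, is `≤ C` and is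
`≤ 2^(-r) C` on `(0, 8^(-r))`, and `ind ≤ vv 0`. Step: on `(0, 8^(-r))` the same with `vv ≥ ind = 1` there
(`8^(-r) ≤ 1 < L`); elsewhere `RR (n + 1) = TT (RR n)`, `TT (vv n) ≤ vv (n + 1)` and
`G (n + 1 + r) = TT (G (n + r))`, `TT` is linear and monotone. -/
def S_key : Prop :=
  ∀ lam ∈ Icc (1 : ℝ) (3 / 2), ∀ C : ℝ≥0∞, (∀ n τ, (TT lam)^[n] (ind lam) τ ≤ C) →
    ∀ (r n : ℕ) (τ : ℝ), (TT lam)^[n + r] (ind lam) τ ≤
      C * RR lam r n τ + (2 : ℝ≥0∞)⁻¹ ^ r * C * vv lam n τ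

/-- **JOB POS** (0.8 h), `theorem pos (h : S_tin) (h1 : S_dec) (h2 : S_key) : S_pos`.
`vv` and `RR` are measurable. Let `k : ℕ`. Choose `r` with `2^(-r) C k ≤ 1/4` and `n` with
`C ∫ RR lam r n ≤ L / 4`. Let `G = {τ ∈ (0, L) | vv lam n τ > k}`. By `S_tin` and `S_key`
`L = ∫ TT^[n+r] (ind lam)` (the function vanishes outside of `(0, L)`), at most
`C vol G + ∫ over (0, L) \ G ≤ C vol G + C ∫ RR + 2^(-r) C k L ≤ C vol G + L/2`. So
`vol {τ ∈ (0, L) | Vs lam τ > k} ≥ L / (2 C)` for all `k` (`C ≥ 1` is finite and positive). These sets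
decrease; continuity from above: `vol {τ ∈ (0, L) | Vs lam τ = ⊤} ≥ L / (2 C) > 0`. -/
def S_pos : Prop :=
  ∀ lam ∈ Icc (1 : ℝ) (3 / 2), ∀ C : ℝ≥0∞, C ≠ ⊤ → (∀ n τ, (TT lam)^[n] (ind lam) τ ≤ C) →
    0 < volume {τ | τ ∈ Ioo (0 : ℝ) (LL lam) ∧ Vs lam τ = ⊤}

/-- **JOB DEN** (1.0 h), `theorem den (h : S_step) : S_den`.
Let `X' = X ∩ (0, L)`, `Y = (0, L) \ X`. For `τ ∈ Y` and `n` there is by `S_step` a word `w` of length
`n` with `res lam τ w ∈ [0, L]`, where `res lam σ w = 8^n σ - c`. So `J = {σ | res lam σ w ∈ [0, L]}`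
is a closed interval of length `8^(-n) L` which contains `τ`, and by the hypothesis on `X`
(iterated) `σ ∈ X` for all `σ ∈ J` with `res lam σ w ∈ X'`; so
`vol (Y ∩ J) ≤ vol J - 8^(-n) vol X' = (1 - vol X' / L) vol J`. Lebesgue's density theorem
(`IsUnifLocDoublingMeasure.ae_tendsto_measure_inter_div` for `Y` with `K = 1`, centres = the midpoints
of the `J`, radii `8^(-n) L / 2`) says that for almost every `τ ∈ Y` the quotient tends to `1`; so
`vol Y = 0`. -/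
def S_den : Prop :=
  ∀ lam ∈ Icc (1 : ℝ) (3 / 2), ∀ X : Set ℝ, MeasurableSet X →
    (∀ (τ : ℝ) (d : D), 8 * τ - dl lam d ∈ X → τ ∈ X) →
    0 < volume (Ioo (0 : ℝ) (LL lam) ∩ X) → volume (Ioo (0 : ℝ) (LL lam) \ X) = 0

/-- **JOB NICE** (0.5 h), `theorem nice (h : S_bd) (h1 : S_pos) (h2 : S_den) : S_nice`.
`X = {τ | Vs lam τ = ⊤}` is measurable, and `(1/2) Vs lam (8 τ - dl lam d) ≤ Vs lam τ`
(`vv (n + 1) τ ≥ TT (vv n) τ ≥ (1/2) vv n (8 τ - dl lam d)`). Use `S_pos` with `C = 2 q + 1`, then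
`S_den`. -/
def S_nice : Prop :=
  ∀ p q : ℕ, Odd p → Odd q → (p : ℝ) / q ∈ Icc (1 : ℝ) (3 / 2) →
    ∀ᵐ τ ∂(volume.restrict (Ioo (0 : ℝ) (LL ((p : ℝ) / q)))), Vs ((p : ℝ) / q) τ = ⊤

/-! ### Singular directions: `lam = 2 p / q` with `p`, `q` odd -/

/-- `e (x) = exp (2 π i x)`. -/
def ee (x : ℝ) : ℂ := Complex.exp (2 * Real.pi * x * Complex.I)

/-- The integer digit for the direction `2 p / q`: `q * dl (2 p / q) d`. -/
def zd (p q : ℕ) (d : D) : ℕ := q * da d + 2 * p * db d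

/-- The integer of a word (first letter = highest digit). -/
def zw (p q : ℕ) : List D → ℕ
  | [] => 0
  | d :: w => 8 ^ w.length * zd p q d + zw p q w

/-- The mean value of `e (zw w / 8^g)` over the words of length `g`. -/
def kap (p q g : ℕ) : ℂ := (∑ w ∈ wds g, ee ((zw p q w : ℝ) / 8 ^ g)) / 16 ^ g

/-- The statistic. -/
def Tk (g k : ℕ) (z : ℕ) : ℂ := ∑ l ∈ Finset.range k, ee ((z : ℝ) / 8 ^ ((l + 1) * g))

/-- **JOB KAP** (1.0 h), `theorem kapl : S_kap`.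
For real `θ`: `∑ w ∈ wds n, e (θ zw w) = ∏ j < n, S (8^j θ)` with `S θ = ∑ d, e (θ zd d)` (induction on
`n`, `zw (d :: w) = 8^n zd d + zw w`). With `θ = 8^(-g)`: `kap g = ∏ i = 1..g, S (8^(-i)) / 16`. Now
`S θ = (1 + e(qθ)) (1 + e(2qθ)) (1 + e(2pθ)) (1 + e(8pθ))` (`da = 0,1,2,3`, `db = 0,1,4,5`), and for
`θ = 8^(-i)`, `i ≥ 1`, no factor vanishes: `1 + e(x) = 0` only if `2 x` is an odd integer, but `p`, `q`
are odd (for `i = 1` the last factor is `2`). Moreover `|S θ / 16 - 1| ≤ 2 π M θ`, `M = 3 q + 10 p`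
(`|e(x) - 1| ≤ 2 π |x|`). So there is `i₀` with `∑ i > i₀, 2 π M 8^(-i) ≤ 1/2`, and the product over
`i₀ < i ≤ g` has absolute value at least `1 - 1/2` (`Finset.prod_one_sub…`/Weierstrass inequality), the
first `i₀` factors have modulus in `(0, 1]`: `c = (1/2) ∏ i ≤ i₀, |S (8^(-i)) / 16|`. -/
def S_kap : Prop :=
  ∀ p q : ℕ, Odd p → Odd q → ∃ c : ℝ, 0 < c ∧ ∀ g : ℕ, c ≤ ‖kap p q g‖

/-- **JOB VAR** (1.0 h), `theorem var : S_var`.
Induction on `k`. `wds ((k+1) g)`: words `u ++ w'`, `u ∈ wds g`, `w' ∈ wds (k g)` (`sum_wds_add`),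
`zw (u ++ w') = 8^(k g) zw u + zw w'`. Let `f u = e (zw u / 8^g) - kap g`, so `∑ u, f u = 0` and
`∑ u, |f u|² = 16^g (1 - |kap|²) ≤ 16^g`. Define `B w` recursively (`B 0 w = 0`,
`B (k+1) (u ++ w') = B k w' + f u`, e.g. with `List.drop g`, `List.take g`). Then
`∑ |B (k+1)|² = 16^g ∑ |B k|² + 0 + 16^(k g) ∑ |f u|² ≤ (k + 1) 16^((k+1) g)`. And
`|Tk g k (zw w) - k kap - B k w| ≤ k * 2 π M / 8^g`, `M = 3 q + 10 p`: for `l < k` the term
`e (zw (u ++ w') / 8^((l+1) g))` is the one of `w'` (difference an integer), for `l = k` it is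
`e (zw u / 8^g + zw w' / 8^((k+1) g))` with `zw w' ≤ M 8^(k g)`. The claim: the set of the `w` with
`‖Tk (zw w) - k kap‖ ≥ k a` (`a ≥ 4 π M / 8^g`) is contained in `{‖B k w‖ ≥ k a / 2}`; Chebyshev:
cardinality `≤ k 16^(k g) / (k a / 2)²`. -/
def S_var : Prop :=
  ∀ (p q g k : ℕ) (a : ℝ), 0 < a → 4 * Real.pi * (3 * q + 10 * p) / 8 ^ g ≤ a →
    (((wds (k * g)).filter fun w => k * a ≤ ‖Tk g k (zw p q w) - k * kap p q g‖).card : ℝ) *
      (k * a) ^ 2 ≤ 4 * k * 16 ^ (k * g)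

/-- **JOB UNI** (0.8 h), `theorem uni : S_uni`.
`|Tk|²` has the period `8^(k g)` in `z`. Over one period: `∑_z e (z (8^(-(l+1)g) - 8^(-(l'+1)g))) = 0`
for `l ≠ l'` in `range k` and `g ≥ 1` (sum of a geometric progression whose ratio is a root of unity
of order dividing `8^(k g)`, different from `1`), so `∑_z |Tk|² = k 8^(k g)`. -/
def S_uni : Prop :=
  ∀ g k M : ℕ, 1 ≤ g →
    ∑ z ∈ Finset.range (M * 8 ^ (k * g)), ‖Tk g k z‖ ^ 2 = M * k * 8 ^ (k * g)

/-- **JOB SNG** (1.0 h), `theorem sng (h : S_kap) (h1 : S_var) (h2 : S_uni) : S_sng`.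
`res (2p/q) τ w = 8^|w| τ - zw w / q`. Let `c` be from `S_kap`, `M = 3 q + 10 p`, `g` with
`4 π M / 8^g ≤ c / 2`, `k` large, `n = k g`, `W` = the words `w ∈ wds n` with
`‖Tk g k (zw w)‖ > k c / 2`. The other ones have `‖Tk - k kap‖ ≥ k c / 2`, so by `S_var` (`a = c/2`) there
are at most `16 / (k c²) 16^n` of them. The values `zw w`, `w ∈ W`, are `< M 8^n` (`M ≥ 1`) and lie in
`V = {z < M 8^n | ‖Tk g k z‖ > k c / 2}`, with `|V| ≤ 4 M k 8^n / (k c)²` by `S_uni`. The set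
`{τ | ∃ w ∈ W, …}` is contained in the union of the intervals `[z / (q 8^n), (z / q + L) / 8^n]`,
`z ∈ V`, so its measure is at most `|V| L / 8^n ≤ 4 M L / (k c²)`. Let `k → ∞`. -/
def S_sng : Prop :=
  ∀ p q : ℕ, Odd p → Odd q → 2 * (p : ℝ) / q ∈ Icc (1 : ℝ) (3 / 2) → ∀ ε : ℝ, 0 < ε →
    ∃ (n : ℕ) (W : Finset (List D)), W ⊆ wds n ∧ (1 - ε) * 16 ^ n ≤ (W.card : ℝ) ∧
      volume {τ | ∃ w ∈ W, res (2 * (p : ℝ) / q) τ w ∈ Icc (0 : ℝ) (LL (2 * (p : ℝ) / q))} <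
        ENNReal.ofReal ε

/-! ### Generic directions -/

/-- The directions with the singularity property of level `ε`. -/
def SG (ε : ℝ) : Set ℝ :=
  {lam | ∃ (n : ℕ) (W : Finset (List D)), W ⊆ wds n ∧ (1 - ε) * 16 ^ n ≤ (W.card : ℝ) ∧
    volume {τ | ∃ w ∈ W, res lam τ w ∈ Icc (0 : ℝ) (LL lam)} < ENNReal.ofReal ε}

/-- **JOB SGO** (0.8 h), `theorem sgo : S_sgo`.
Fix `n`, `W`. `res lam τ w = 8^|w| τ - c lam w` with `c lam w` affine in `lam`, so
`J lam w = {τ | res lam τ w ∈ [0, LL lam]}` is the interval `{(c lam w + s * LL lam) / 8^|w| | s ∈ [0, 1]}`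
if `LL lam ≥ 0` (and empty if `LL lam < 0`). Let `lam₀` be in the set, `C₀ = ⋃ w ∈ W, J lam₀ w`, and
`O ⊇ C₀` open with `volume O < ε` (`Set.exists_isOpen_lt_of_lt`). For `lam` near `lam₀` all
`J lam w ⊆ O`: tube lemma for the continuous map `(lam, s) ↦ (c lam w + s LL lam) / 8^|w|` on
`ℝ × [0, 1]`, or uniform continuity; here `lam₀ > 0`, so `LL > 0` near `lam₀`. -/
def S_sgo : Prop := ∀ ε : ℝ, IsOpen (SG ε ∩ Ioi 0)

/-- **JOB SGM** (1.0 h), `theorem sgm (h : S_base) (h1 : S_hsc) (h2 : S_hfin) (h3 : S_hit) : S_sgm`.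
For `k` let `n`, `W` be from `lam ∈ SG (2^(-k))`, `B k = {τ | ∃ w ∈ W, res lam τ w ∈ [0, L]}` (a closed
set), `volume (B k) < 2^(-k)`. If `x ∈ K` and `pr lam x ∉ B k`, then `x ∈ psw w '' K` for some word `w` of
length `n` (iterate `S_base`), and `w ∉ W` by `S_hit`. So
`μH (K ∩ pr⁻¹ (B k)ᶜ) ≤ ∑ w ∈ wds n \ W, μH (psw w '' K) ≤ 2^(-k) 16^n 16^(-n) μH K ≤ 2^(-k)`. Let
`B = limsup B k = ⋂ m, ⋃ k ≥ m, B k`: `volume B = 0` and `μH (K ∩ pr⁻¹ Bᶜ) = 0` as
`Bᶜ = ⋃ m, ⋂ k ≥ m, (B k)ᶜ`. This is the singularity (`MeasureTheory.Measure.MutuallySingular`, with the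
measurable set `Bᶜ`), `pr lam` is continuous. -/
def S_sgm : Prop :=
  ∀ lam ∈ Icc (1 : ℝ) (3 / 2), (∀ k : ℕ, lam ∈ SG ((1 / 2 : ℝ) ^ k)) →
    ((μH[(4 / 3 : ℝ)] : Measure E2).restrict KK).map (pr lam) ⟂ₘ volume

/-- The directions with the packing property of level `k`. -/
def UG (k : ℕ) : Set ℝ :=
  {lam | ENNReal.ofReal (LL lam - 1 / (k + 1)) < volume {τ | (k : ℝ≥0∞) < Vs lam τ}}

/-- **JOB UGO** (1.0 h), `theorem ugo : S_ugo`.
`(lam, τ) ↦ vv lam n τ` is lower semicontinuous on `ℝ × ℝ` (induction on `n`: indicator of an open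
set; composition with continuous maps; finite sums (`ℝ≥0∞`), multiplication by the constant `1/2` and
maxima of lower semicontinuous functions), so is `Vs`, and `O = {(lam, τ) | k < Vs lam τ}` is open. For
open `O` the function `lam ↦ volume (section of O)` is lower semicontinuous: if it is `> c` at `lam₀`,
there is a compact subset `C` of the section with `volume C > c` (`IsOpen.exists_lt_isCompact`), and
`{lam₀} × C ⊆ O` implies `U × C ⊆ O` for a neighbourhood `U` (`generalized_tube_lemma`). Since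
`lam ↦ LL lam - 1/(k+1)` is continuous, `UG k` is open. -/
def S_ugo : Prop := ∀ k : ℕ, IsOpen (UG k)

/-- **JOB UGM** (0.5 h), `theorem ugm : S_ugm`.
`Vs lam` vanishes outside of `(0, L)` (induction for `vv`: `8 τ - dl lam d ∈ (0, L)` implies
`τ ∈ (0, L)`, as `0 ≤ dl lam d ≤ 7 L`). So for `lam ∈ UG k` the set `{τ ∈ (0, L) | Vs lam τ ≤ k}` has
measure at most `1 / (k + 1)`; hence `{τ ∈ (0, L) | Vs lam τ ≤ m}` has measure at most `1 / (k + 1)` for
all `k ≥ m`, so it is a null set; union over `m`. -/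
def S_ugm : Prop :=
  ∀ lam ∈ Icc (1 : ℝ) (3 / 2), (∀ k : ℕ, lam ∈ UG k) →
    ∀ᵐ τ ∂(volume.restrict (Ioo (0 : ℝ) (LL lam))), Vs lam τ = ⊤

/-- **JOB UGN** (0.4 h), `theorem ugn (h : S_nice) : S_ugn`.
`{τ | k < Vs lam τ}` contains almost all of `(0, L)`, so has measure at least
`L = LL lam > max (LL lam - 1/(k+1)) 0`. -/
def S_ugn : Prop :=
  ∀ p q : ℕ, Odd p → Odd q → (p : ℝ) / q ∈ Icc (1 : ℝ) (3 / 2) → ∀ k : ℕ, (p : ℝ) / q ∈ UG k

/-- **JOB RAT** (0.4 h), `theorem rat : S_rat`.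
Take `q = 2 N + 1` large (`q (b - a) > 4`) and an odd `p` in `(a q, b q)`; and for the second part an odd
`p` in `(a q / 2, b q / 2)` (`q (b - a) / 2 > 2`). -/
def S_rat : Prop :=
  ∀ a b : ℝ, 0 ≤ a → a < b →
    (∃ p q : ℕ, Odd p ∧ Odd q ∧ a < (p : ℝ) / q ∧ (p : ℝ) / q < b) ∧
    (∃ p q : ℕ, Odd p ∧ Odd q ∧ a < 2 * (p : ℝ) / q ∧ 2 * (p : ℝ) / q < b)

/-- **JOB BAI** (0.6 h), `theorem bai (h : S_sng) (h1 : S_sgo) (h2 : S_ugo) (h3 : S_ugn) (h4 : S_rat) :
S_bai`.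
Baire's theorem in `ℝ` for the open sets `UG k ∪ (Icc 1 (3/2))ᶜ` and
`(SG ((1/2)^k) ∩ Ioi 0) ∪ (Icc 1 (3/2))ᶜ`, which are dense by `S_rat`
(`dense_iInter_of_isOpen_nat` or `dense_iInter_of_isOpen`), and the nonempty open set `Ioo 1 (3/2)`. -/
def S_bai : Prop :=
  ∃ lam ∈ Icc (1 : ℝ) (3 / 2), (∀ k : ℕ, lam ∈ SG ((1 / 2 : ℝ) ^ k)) ∧ ∀ k : ℕ, lam ∈ UG k

end Pool.Agent.Q88.PS
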